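import Mathlib

/-! The norm of an element of a graded basis: value at `0` and leading coefficient. -/

set_option autoImplicit false
set_option linter.unusedSectionVars false

namespace Pool.Agent.Q223.CF

open Polynomial Module

/-- the leading coefficient of a determinant with one dominant permutation -/
theorem det_dom {L : Type} [Field L] {n p : ℕ} (M : Matrix (Fin n) (Fin n) L[X])
    (τ : Equiv.Perm (Fin n)) (ω : Fin n → ℕ) (W : ℕ)
    (h1 : ∀ i j, M i j ≠ 0 → i ≠ τ j → p * (M i j).natDegree + ω i < W + ω j)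
    (h2 : ∀ j, M (τ j) j ≠ 0) (h3 : ∀ j, p * (M (τ j) j).natDegree + ω (τ j) = W + ω j) :
    M.det.leadingCoeff = ((Equiv.Perm.sign τ : ℤ) : L) * ∏ j, (M (τ j) j).leadingCoeff := by
  classical
  set K := ∑ j, (M (τ j) j).natDegree with hK
  have hτd : (∏ j, M (τ j) j).natDegree = K := natDegree_prod _ _ fun j _ => h2 j
  have hσ : ∀ σ : Equiv.Perm (Fin n), σ ≠ τ → ∀ N, K ≤ N → (∏ j, M (σ j) j).coeff N = 0 := by
    intro σ hσ N hN
    by_cases h0 : ∃ j, M (σ j) j = 0
    · obtain ⟨j, hj⟩ := h0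
      have h4 : ∏ j, M (σ j) j = 0 := Finset.prod_eq_zero (Finset.mem_univ j) hj
      rw [h4, coeff_zero]
    push Not at h0
    refine coeff_eq_zero_of_natDegree_lt (lt_of_lt_of_le ?_ hN)
    rw [natDegree_prod _ _ fun j _ => h0 j]
    have h4 : ∀ j, p * (M (σ j) j).natDegree + ω (σ j) ≤ p * (M (τ j) j).natDegree + ω (τ j) := by
      intro j
      rw [h3]
      by_cases hj : σ j = τ j
      · rw [hj, h3]
      · exact (h1 _ _ (h0 j) hj).le
    obtain ⟨j, hj⟩ : ∃ j, σ j ≠ τ j := by
      by_contra hcon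
      push Not at hcon
      exact hσ (Equiv.ext hcon)
    have h5 : ∑ j, (p * (M (σ j) j).natDegree + ω (σ j)) <
        ∑ j, (p * (M (τ j) j).natDegree + ω (τ j)) := by
      refine Finset.sum_lt_sum (fun j _ => h4 j) ⟨j, Finset.mem_univ j, ?_⟩
      rw [h3]
      exact h1 _ _ (h0 j) hj
    rw [Finset.sum_add_distrib, Finset.sum_add_distrib, Equiv.sum_comp σ, Equiv.sum_comp τ,
      ← Finset.mul_sum, ← Finset.mul_sum] at h5
    exact Nat.lt_of_mul_lt_mul_left (Nat.lt_of_add_lt_add_right h5)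
  have hc : M.det.coeff K = ((Equiv.Perm.sign τ : ℤ) : L) * ∏ j, (M (τ j) j).leadingCoeff := by
    rw [Matrix.det_apply, finsetSum_coeff, Finset.sum_eq_single τ]
    · rw [Units.smul_def, coeff_smul, ← hτd]
      change _ • (∏ j, M (τ j) j).leadingCoeff = _
      rw [leadingCoeff_prod, zsmul_eq_mul]
    · intro σ _ h
      rw [Units.smul_def, coeff_smul, hσ σ h _ le_rfl, smul_zero]
    · intro h
      exact absurd (Finset.mem_univ _) h
  have hne : ((Equiv.Perm.sign τ : ℤ) : L) * ∏ j, (M (τ j) j).leadingCoeff ≠ 0 := by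
    refine mul_ne_zero ?_ (Finset.prod_ne_zero_iff.2 fun j _ => leadingCoeff_ne_zero.2 (h2 j))
    rcases Int.units_eq_one_or (Equiv.Perm.sign τ) with h | h
    · rw [h]; simp
    · rw [h]; simp
  have hd : M.det.natDegree ≤ K := by
    rw [natDegree_le_iff_coeff_eq_zero]
    intro N hN
    rw [Matrix.det_apply, finsetSum_coeff]
    refine Finset.sum_eq_zero fun σ _ => ?_
    rw [Units.smul_def, coeff_smul]
    by_cases h : σ = τ
    · rw [h, coeff_eq_zero_of_natDegree_lt (by rw [hτd]; exact hN), smul_zero]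
    · rw [hσ σ h N hN.le, smul_zero]
  have hK' : M.det.natDegree = K := le_antisymm hd (le_natDegree_of_ne_zero (by rw [hc]; exact hne))
  rw [leadingCoeff, hK', hc]

theorem det_add_nilp {L : Type} [Field L] {n : ℕ} (c : L) (N : Matrix (Fin n) (Fin n) L)
    (hN : IsNilpotent N) : (Matrix.scalar _ c + N).det = c ^ n := by
  have h1 : IsNilpotent (-N) := hN.neg
  have h2 := Matrix.isNilpotent_charpoly_sub_pow_of_isNilpotent h1
  have h3 : (-N).charpoly = X ^ n := by
    have h4 := h2.eq_zero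
    rw [sub_eq_zero, Fintype.card_fin] at h4
    exact h4
  have h5 := Matrix.eval_charpoly (-N) c
  rw [h3, eval_pow, eval_X, sub_neg_eq_add] at h5
  exact h5.symm

section
variable {L : Type} [Field L] {S : Type} [CommRing S] [Algebra L[X] S] {p : ℕ} [NeZero p]
  (v : Basis (Fin p) L[X] S)

/-- the matrix modulo the variable -/
noncomputable def Ps : S →+* Matrix (Fin p) (Fin p) L :=
  (evalRingHom 0).mapMatrix.comp (Algebra.leftMulMatrix v).toRingHom

theorem Ps_of (g : L[X]) : Ps v (algebraMap L[X] S g) = Matrix.scalar _ (g.eval 0) := by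
  classical
  unfold Ps
  rw [RingHom.comp_apply]
  have h1 : (Algebra.leftMulMatrix v).toRingHom (algebraMap L[X] S g) = Matrix.scalar _ g :=
    (Algebra.leftMulMatrix v).commutes g
  rw [h1]
  ext i j
  simp [Matrix.scalar_apply, Matrix.diagonal_apply]
  split_ifs <;> simp

theorem norm_eval (f : S) : (Algebra.norm L[X] f).eval 0 = (Ps v f).det := by
  rw [Algebra.norm_eq_matrix_det v]
  change evalRingHom 0 _ = _
  rw [RingHom.map_det]
  rfl

/-- **The value of the norm at `0`.** -/
theorem abs_zero (h0 : v 0 = 1) (hv : ∀ i, i ≠ 0 → ∃ (n : ℕ) (g : L[X]), g.eval 0 = 0 ∧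
      v i ^ n = algebraMap L[X] S g) (e : S →+* L) (he : ∀ g : L[X], e (algebraMap L[X] S g) = g.eval 0)
    (f : S) : (Algebra.norm L[X] f).eval 0 = e f ^ p := by
  classical
  rw [norm_eval v]
  let I : Ideal S := RingHom.ker (Ps v)
  have hvr : ∀ i, i ≠ 0 → v i ∈ I.radical := by
    intro i hi
    obtain ⟨n, g, hg, hvn⟩ := hv i hi
    refine ⟨n, ?_⟩
    rw [hvn, RingHom.mem_ker, Ps_of, hg, map_zero]
  have hev : ∀ i, i ≠ 0 → e (v i) = 0 := by
    intro i hi
    obtain ⟨n, g, hg, hvn⟩ := hv i hi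
    have h1 : e (v i) ^ n = 0 := by rw [← map_pow, hvn, he, hg]
    exact eq_zero_of_pow_eq_zero h1
  have hf : f = ∑ i, v.repr f i • v i := (v.sum_repr f).symm
  have hc : e f = (v.repr f 0).eval 0 := by
    conv_lhs => rw [hf]
    rw [map_sum, Finset.sum_eq_single 0]
    · rw [Algebra.smul_def, map_mul, h0, map_one, mul_one, he]
    · intro i _ hi
      rw [Algebra.smul_def, map_mul, hev i hi, mul_zero]
    · intro h
      exact absurd (Finset.mem_univ _) h
  have hrad : f - algebraMap L[X] S (C (e f)) ∈ I.radical := by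
    have h2 : v.repr f 0 • v 0 + ∑ i ∈ Finset.univ.erase 0, v.repr f i • v i = f := by
      rw [Finset.add_sum_erase _ (fun i => v.repr f i • v i) (Finset.mem_univ 0)]
      exact v.sum_repr f
    rw [h0, Algebra.smul_def, mul_one] at h2
    have h1 : f - algebraMap L[X] S (C (e f)) =
        algebraMap L[X] S (v.repr f 0 - C (e f)) + ∑ i ∈ Finset.univ.erase 0, v.repr f i • v i := by
      generalize e f = c
      refine (congrArg (fun t => t - algebraMap L[X] S (C c)) h2.symm).trans ?_
      rw [map_sub]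
      ring
    rw [h1]
    refine I.radical.add_mem ?_ ?_
    · refine Ideal.le_radical ?_
      rw [RingHom.mem_ker, Ps_of, eval_sub, eval_C, hc, sub_self, map_zero]
    · refine Ideal.sum_mem _ fun i hi => ?_
      rw [Algebra.smul_def]
      exact Ideal.mul_mem_left _ _ (hvr i (Finset.ne_of_mem_erase hi))
  obtain ⟨N, hN⟩ := hrad
  have h2 : Ps v f = Matrix.scalar _ (e f) + Ps v (f - algebraMap L[X] S (C (e f))) := by
    rw [map_sub, Ps_of, eval_C]
    abel
  rw [h2, det_add_nilp _ _ ⟨N, ?_⟩]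
  rw [← map_pow]
  exact hN

/-- **The leading coefficient of the norm.** -/
theorem abs_lead (q : Fin p → Fin p → L[X]) (hq : ∀ i j, v i * v j = q i j • v (i + j))
    (ω : Fin p → ℕ) (hq0 : ∀ i j, q i j ≠ 0)
    (hqd : ∀ i j, ω i + ω j = ω (i + j) + p * (q i j).natDegree)
    (hql : ∀ i j, (q i j).leadingCoeff = 1 ∨ (q i j).leadingCoeff = -1)
    (hω : ∀ i j, ω i ≡ ω j [MOD p] → i = j) {f : S} (hf : f ≠ 0) :
    ∃ γ ε : L, γ ≠ 0 ∧ (ε = 1 ∨ ε = -1) ∧ (Algebra.norm L[X] f).leadingCoeff = ε * γ ^ p := by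
  classical
  -- the matrix
  have hM : ∀ l j, Algebra.leftMulMatrix v f l j = v.repr f (l - j) * q (l - j) j := by
    intro l j
    rw [Algebra.leftMulMatrix_eq_repr_mul]
    have h1 : f * v j = ∑ i, (v.repr f i * q i j) • v (i + j) := by
      conv_lhs => rw [← v.sum_repr f, Finset.sum_mul]
      exact Finset.sum_congr rfl fun i _ => by rw [smul_mul_assoc, hq, smul_smul]
    have h2 : f * v j = ∑ l, (v.repr f (l - j) * q (l - j) j) • v l := by
      rw [h1, ← Equiv.sum_comp (Equiv.addRight j)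
        (fun l => (v.repr f (l - j) * q (l - j) j) • v l)]
      refine Finset.sum_congr rfl fun i _ => ?_
      rw [Equiv.coe_addRight, add_sub_cancel_right]
    rw [h2, v.repr_sum_self]
  -- the dominant coefficient
  have hne : (Finset.univ.filter fun i => v.repr f i ≠ 0).Nonempty := by
    by_contra hcon
    rw [Finset.not_nonempty_iff_eq_empty, Finset.filter_eq_empty_iff] at hcon
    apply hf
    rw [← v.sum_repr f]
    refine Finset.sum_eq_zero fun i hi => ?_
    have h1 := hcon hi
    push Not at h1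
    rw [h1, zero_smul]
  obtain ⟨i₀, hi₀, hmax⟩ := Finset.exists_max_image _
    (fun i => p * (v.repr f i).natDegree + ω i) hne
  rw [Finset.mem_filter] at hi₀
  have hi₀' := hi₀.2
  have hlt : ∀ i, v.repr f i ≠ 0 → i ≠ i₀ → p * (v.repr f i).natDegree + ω i <
      p * (v.repr f i₀).natDegree + ω i₀ := by
    intro i hi hii
    refine lt_of_le_of_ne (hmax i (Finset.mem_filter.2 ⟨Finset.mem_univ i, hi⟩)) fun h => hii ?_
    refine hω _ _ ?_
    have h1 : p * (v.repr f i).natDegree + ω i ≡ p * (v.repr f i₀).natDegree + ω i₀ [MOD p] := by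
      rw [h]
    have h2 : ∀ a b : ℕ, p * a + b ≡ b [MOD p] := fun a b => by
      unfold Nat.ModEq
      rw [Nat.mul_add_mod]
    exact ((h2 _ _).symm.trans h1).trans (h2 _ _)
  have hdeg : ∀ l j, v.repr f (l - j) ≠ 0 →
      p * (Algebra.leftMulMatrix v f l j).natDegree + ω l =
        p * (v.repr f (l - j)).natDegree + ω (l - j) + ω j := by
    intro l j h
    rw [hM, natDegree_mul h (hq0 _ _), add_assoc, hqd, sub_add_cancel]
    ring
  have key := det_dom (p := p) (Algebra.leftMulMatrix v f) (Equiv.addLeft i₀) ω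
    (p * (v.repr f i₀).natDegree + ω i₀) (fun l j h1 h2 => by
      have h3 : v.repr f (l - j) ≠ 0 := by
        intro h
        rw [hM, h, zero_mul] at h1
        exact h1 rfl
      have h4 : l - j ≠ i₀ := by
        rintro h
        apply h2
        change l = i₀ + j
        rw [← h, sub_add_cancel]
      rw [hdeg l j h3]
      have h5 := hlt _ h3 h4
      omega)
    (fun j => by
      change Algebra.leftMulMatrix v f (i₀ + j) j ≠ 0
      rw [hM, add_sub_cancel_right]
      exact mul_ne_zero hi₀' (hq0 _ _))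
    (fun j => by
      change p * (Algebra.leftMulMatrix v f (i₀ + j) j).natDegree + ω (i₀ + j) = _
      rw [hdeg _ _ (by rw [add_sub_cancel_right]; exact hi₀'), add_sub_cancel_right])
  rw [← Algebra.norm_eq_matrix_det v] at key
  refine ⟨(v.repr f i₀).leadingCoeff, ((Equiv.Perm.sign (Equiv.addLeft i₀) : ℤ) : L) *
    ∏ j, (q i₀ j).leadingCoeff, leadingCoeff_ne_zero.2 hi₀', ?_, ?_⟩
  · have h1 : ∀ a b : L, (a = 1 ∨ a = -1) → (b = 1 ∨ b = -1) → (a * b = 1 ∨ a * b = -1) := by
      rintro a b (rfl | rfl) (rfl | rfl) <;> simp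
    refine h1 _ _ ?_ ?_
    · rcases Int.units_eq_one_or (Equiv.Perm.sign (Equiv.addLeft i₀)) with h | h
      · rw [h]; simp
      · rw [h]; simp
    · refine Finset.prod_induction _ (fun a => a = 1 ∨ a = -1) h1 (Or.inl rfl) fun j _ => hql i₀ j
  · rw [key, mul_assoc]
    congr 1
    have h1 : ∀ j, (Algebra.leftMulMatrix v f (Equiv.addLeft i₀ j) j).leadingCoeff =
        (v.repr f i₀).leadingCoeff * (q i₀ j).leadingCoeff := by
      intro j
      change (Algebra.leftMulMatrix v f (i₀ + j) j).leadingCoeff = _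
      rw [hM, add_sub_cancel_right, leadingCoeff_mul]
    rw [Finset.prod_congr rfl fun j _ => h1 j, Finset.prod_mul_distrib, Finset.prod_const,
      Finset.card_univ, Fintype.card_fin, mul_comm]

end

end Pool.Agent.Q223.CF
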