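import Pool.Agent.Q7.CF.Stm
import Pool.Agent.Q223.CJ.Quo
import Pool.Agent.Q223.CF.Abs

/-! The value of `u` at principal ideals. -/

set_option autoImplicit false
set_option linter.unusedSectionVars false

namespace Pool.Agent.Q223.CF

open Polynomial Module Pool.Agent.Q7.CF

section
variable (p r : ℕ) [Fact p.Prime] [Ok p r] {L : Type} [Field L] (D : L)

/-- `BQ` as an algebra over `L[u]` -/
noncomputable abbrev algU : Algebra L[X] (BQ p r D) :=
  (aeval (uu p r D) : L[X] →ₐ[L] BQ p r D).toRingHom.toAlgebra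

attribute [local instance] algU

theorem algMap_eq (g : L[X]) : algebraMap L[X] (BQ p r D) g = aeval (uu p r D) g := rfl

/-- the basis elements -/
noncomputable def vi (i : Fin p) : BQ p r D :=
  ⟨XF p D ^ (i : ℕ) * YF p D ^ (r * (i : ℕ) % p), mons_mem p r D (Nat.mod_modEq _ _)⟩

theorem exists_basis (h : S_BSC) : ∃ v : Basis (Fin p) L[X] (BQ p r D), ∀ i, v i = vi p r D i := by
  classical
  have h1 : ∀ z : BQ p r D, ∃! f : Fin p → L[X],
      z = ∑ i : Fin p, aeval (uu p r D) (f i) * vi p r D i := (h p r L D).2.1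
  let F : (Fin p → L[X]) →ₗ[L[X]] BQ p r D := Fintype.linearCombination L[X] (vi p r D)
  have hF : ∀ f, F f = ∑ i : Fin p, aeval (uu p r D) (f i) * vi p r D i := fun f => rfl
  have hb : Function.Bijective F := by
    constructor
    · intro f g hfg
      obtain ⟨f₀, -, hu⟩ := h1 (F f)
      rw [hu f (hF f), hu g (by rw [hfg]; exact hF g)]
    · intro z
      obtain ⟨f, hf, -⟩ := h1 z
      exact ⟨f, hf.symm⟩
  refine ⟨Basis.ofEquivFun (LinearEquiv.ofBijective F hb).symm, fun i => ?_⟩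
  rw [Basis.coe_ofEquivFun, LinearEquiv.symm_symm]
  change Fintype.linearCombination L[X] (vi p r D) (Pi.single i 1) = _
  rw [Fintype.linearCombination_apply_single, one_smul]

theorem aeval_q (A B : ℕ) : aeval (uu p r D) (X ^ A * (C D - X) ^ B) =
    uu p r D ^ A * ww p r D ^ B := by
  have h : algebraMap L (BQ p r D) D - uu p r D = ww p r D := by
    rw [← uu_add_ww p r D]
    ring
  rw [map_mul, map_pow, map_pow, map_sub, aeval_X, aeval_C, h]

variable [NeZero p]

theorem vi_mul (i j : Fin p) : vi p r D i * vi p r D j =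
    aeval (uu p r D) (X ^ (((i : ℕ) + j) / p) * (C D - X) ^ ((r * i % p + r * j % p) / p)) *
      vi p r D (i + j) := by
  rw [aeval_q]
  refine Subtype.ext ?_
  change XF p D ^ (i : ℕ) * YF p D ^ (r * (i : ℕ) % p) *
      (XF p D ^ (j : ℕ) * YF p D ^ (r * (j : ℕ) % p)) =
    (XF p D ^ p) ^ (((i : ℕ) + j) / p) * (YF p D ^ p) ^ ((r * i % p + r * j % p) / p) *
      (XF p D ^ ((i + j : Fin p) : ℕ) * YF p D ^ (r * ((i + j : Fin p) : ℕ) % p))
  have h1 : r * ((i + j : Fin p) : ℕ) % p = (r * i % p + r * j % p) % p := by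
    rw [Fin.val_add, Nat.mul_mod, Nat.mod_mod, ← Nat.mul_mod, mul_add, Nat.add_mod]
  rw [h1, Fin.val_add, ← pow_mul, ← pow_mul]
  have h2 : XF p D ^ (i : ℕ) * XF p D ^ (j : ℕ) =
      XF p D ^ (p * (((i : ℕ) + j) / p)) * XF p D ^ (((i : ℕ) + j) % p) := by
    rw [← pow_add, ← pow_add, Nat.div_add_mod]
  have h3 : YF p D ^ (r * (i : ℕ) % p) * YF p D ^ (r * (j : ℕ) % p) =
      YF p D ^ (p * ((r * i % p + r * j % p) / p)) *
        YF p D ^ ((r * i % p + r * j % p) % p) := by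
    rw [← pow_add, ← pow_add, Nat.div_add_mod]
  calc _ = (XF p D ^ (i : ℕ) * XF p D ^ (j : ℕ)) *
      (YF p D ^ (r * (i : ℕ) % p) * YF p D ^ (r * (j : ℕ) % p)) := by ring
    _ = _ := by rw [h2, h3]; ring

theorem vi_pow (i : Fin p) : vi p r D i ^ p =
    aeval (uu p r D) (X ^ (i : ℕ) * (C D - X) ^ (r * (i : ℕ) % p)) := by
  rw [aeval_q]
  refine Subtype.ext ?_
  change (XF p D ^ (i : ℕ) * YF p D ^ (r * (i : ℕ) % p)) ^ p =
    (XF p D ^ p) ^ (i : ℕ) * (YF p D ^ p) ^ (r * (i : ℕ) % p)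
  rw [mul_pow, ← pow_mul, ← pow_mul, ← pow_mul, ← pow_mul, mul_comm (i : ℕ) p,
    mul_comm (r * (i : ℕ) % p) p]

theorem sub_eq_neg' : (C D - X : L[X]) = -(X - C D) := by ring

theorem q_ne (A B : ℕ) : (X ^ A * (C D - X) ^ B : L[X]) ≠ 0 := by
  refine mul_ne_zero (pow_ne_zero _ X_ne_zero) (pow_ne_zero _ ?_)
  rw [sub_eq_neg', neg_ne_zero]
  exact X_sub_C_ne_zero D

theorem q_natDegree (A B : ℕ) : (X ^ A * (C D - X) ^ B : L[X]).natDegree = A + B := by
  have h : (C D - X : L[X]) ≠ 0 := by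
    rw [sub_eq_neg', neg_ne_zero]
    exact X_sub_C_ne_zero D
  rw [natDegree_mul (pow_ne_zero _ X_ne_zero) (pow_ne_zero _ h), natDegree_X_pow, natDegree_pow,
    sub_eq_neg', natDegree_neg, natDegree_X_sub_C, mul_one]

theorem q_lead (A B : ℕ) : (X ^ A * (C D - X) ^ B : L[X]).leadingCoeff = 1 ∨
    (X ^ A * (C D - X) ^ B : L[X]).leadingCoeff = -1 := by
  rw [leadingCoeff_mul, leadingCoeff_pow, leadingCoeff_pow, leadingCoeff_X, one_pow, one_mul,
    sub_eq_neg', leadingCoeff_neg, leadingCoeff_X_sub_C]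
  exact neg_one_pow_eq_or L B

theorem weight_inj (i j : Fin p) (h : (i : ℕ) + r * (i : ℕ) % p ≡ (j : ℕ) + r * (j : ℕ) % p [MOD p]) :
    i = j := by
  have hp := (Fact.out (p := p.Prime))
  have hr1 := Ok.h1 (p := p) (r := r)
  have hr2 := Ok.h2 (p := p) (r := r)
  have h1 : ∀ a : ℕ, a + r * a % p ≡ (1 + r) * a [MOD p] := by
    intro a
    rw [add_mul, one_mul]
    exact Nat.ModEq.add_left _ (Nat.mod_modEq _ _)
  have h2 : (1 + r) * (i : ℕ) ≡ (1 + r) * (j : ℕ) [MOD p] := ((h1 i).symm.trans h).trans (h1 j)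
  have h3 : Nat.gcd p (1 + r) = 1 := by
    refine (Nat.Prime.coprime_iff_not_dvd hp).2 fun hd => ?_
    have := Nat.le_of_dvd (by omega) hd
    omega
  have h4 : (i : ℕ) ≡ (j : ℕ) [MOD p] := Nat.ModEq.cancel_left_of_coprime h3 h2
  have h5 : (i : ℕ) = j := by
    unfold Nat.ModEq at h4
    rwa [Nat.mod_eq_of_lt i.2, Nat.mod_eq_of_lt j.2] at h4
  exact Fin.ext h5

end

theorem nmp : S_BSC → S_DED → S_NMP := by
  intro hB hDed p r _ _ L _ _ D hD f hf
  have hp := (Fact.out (p := p.Prime))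
  have hne : NeZero p := ⟨hp.ne_zero⟩
  have hr1 := Ok.h1 (p := p) (r := r)
  have hr2 := Ok.h2 (p := p) (r := r)
  have hp2 : p ≠ 2 := by omega
  have hdd : IsDedekindDomain (BQ p r D) := (hDed p r L D hD).1
  have hdom : IsDomain (BQ p r D) := inferInstance
  let _ : Algebra L[X] (BQ p r D) := algU p r D
  have htow : IsScalarTower L L[X] (BQ p r D) := IsScalarTower.of_algebraMap_eq fun a => by
    rw [algMap_eq]
    exact (aeval_C (uu p r D) a).symm
  obtain ⟨v, hv⟩ := exists_basis p r D hB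
  obtain ⟨e, he1, he2, -, -⟩ := (hB p r L D).2.2.2.1
  have hf0 : f ≠ 0 := by
    rintro rfl
    exact hf (zero_mem _)
  have hef : e f ≠ 0 := fun h => hf (by rw [← he1]; exact h)
  have he : ∀ g : L[X], (e : BQ p r D →+* L) (algebraMap L[X] (BQ p r D) g) = g.eval 0 := by
    intro g
    change e (aeval (uu p r D) g) = g.eval 0
    rw [← aeval_algHom_apply, he2, coe_aeval_eq_eval]
  have h1 := abs_zero v (by
      rw [hv]
      refine Subtype.ext ?_
      change XF p D ^ ((0 : Fin p) : ℕ) * YF p D ^ (r * ((0 : Fin p) : ℕ) % p) = 1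
      rw [Fin.val_zero, mul_zero, Nat.zero_mod, pow_zero, pow_zero, mul_one])
    (fun i hi => ⟨p, X ^ (i : ℕ) * (C D - X) ^ (r * (i : ℕ) % p), by
      rw [eval_mul, eval_pow, eval_X, zero_pow, zero_mul]
      intro h0
      exact hi (Fin.ext (by rw [h0, Fin.val_zero])), by
      rw [hv, vi_pow]
      rfl⟩) (e : BQ p r D →+* L) he f
  obtain ⟨γ, ε, hγ, hε, hlc⟩ := abs_lead v
    (fun i j => X ^ (((i : ℕ) + j) / p) * (C D - X) ^ ((r * i % p + r * j % p) / p))
    (fun i j => by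
      rw [hv, hv, hv, vi_mul, Algebra.smul_def]
      rfl)
    (fun i => (i : ℕ) + r * (i : ℕ) % p) (fun i j => q_ne D _ _)
    (fun i j => by
      have h2 : r * ((i + j : Fin p) : ℕ) % p = (r * i % p + r * j % p) % p := by
        rw [Fin.val_add, Nat.mul_mod, Nat.mod_mod, ← Nat.mul_mod, mul_add, Nat.add_mod]
      rw [q_natDegree, h2, Fin.val_add, mul_add]
      have h3 := Nat.div_add_mod ((i : ℕ) + j) p
      have h4 := Nat.div_add_mod (r * i % p + r * j % p) p
      omega)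
    (fun i j => q_lead D _ _) (fun i j h => weight_inj p r i j h) hf0
  have h2 := Pool.Agent.Q223.CJ.norm_quot (F := L) v hf0
  have h3 : nm p r D (Ideal.span {f}) =
      (-1) ^ (Algebra.norm L[X] f).natDegree *
        ((Algebra.norm L[X] f).eval 0 / (Algebra.norm L[X] f).leadingCoeff) := by
    rw [← h2, algMap_eq, aeval_X]
    rfl
  set N := (Algebra.norm L[X] f).natDegree
  rw [h1, hlc] at h3
  have hodd := hp.odd_of_ne_two hp2
  have hεp : ε ^ p = ε := by
    rcases hε with rfl | rfl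
    · exact one_pow _
    · exact hodd.neg_one_pow
  have hε0 : ε ≠ 0 := by
    rcases hε with rfl | rfl
    · exact one_ne_zero
    · exact neg_ne_zero.2 one_ne_zero
  refine ⟨(-1) ^ N * (e f / (ε * γ)), mul_ne_zero (pow_ne_zero _ (neg_ne_zero.2 one_ne_zero))
    (div_ne_zero hef (mul_ne_zero hε0 hγ)), ?_⟩
  rw [h3, mul_pow, div_pow, mul_pow, hεp, ← pow_mul, mul_comm N p, pow_mul, hodd.neg_one_pow]
  rfl

end Pool.Agent.Q223.CF
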